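import Pool.Agent.Run7.h566.FQ.Cs

/-! Multilinear families of vectors of residues have small Fourier coefficients. -/

set_option autoImplicit false

open Finset
open scoped Classical

namespace Pool.Agent.Run7.h566.FQ

variable {q : ℕ} [NeZero q] {r : ℕ}

lemma K_pos : 0 < K q r := by
  unfold K
  exact_mod_cast Fintype.card_pos

/-- complete linear sums vanish -/
lemma T_zero (h : Fin r → ZMod q) (hh : h ≠ 0) : T q r 0 h = 0 := by
  unfold T
  rw [norm_eq_zero]
  obtain ⟨l, hl⟩ : ∃ l, h l ≠ 0 := by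
    by_contra hc
    push Not at hc
    exact hh (funext hc)
  have hne : ps q (h l) ≠ 1 := by
    intro h1
    apply hl
    apply ZMod.injective_stdAddChar
    unfold ps at h1
    rw [h1, AddChar.map_zero_eq_one]
  have h2 : ∑ u : Fin r → ZMod q, ps q (∑ l, h l * u l) =
      ps q (h l) * ∑ u : Fin r → ZMod q, ps q (∑ l, h l * u l) := by
    rw [mul_sum]
    refine Fintype.sum_equiv (Equiv.subRight (Pi.single l (1 : ZMod q))) _ _ fun u => ?_
    rw [← ps_add]
    congr 1
    simp only [Equiv.subRight_apply, Pi.sub_apply, mul_sub, sum_sub_distrib]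
    have h3 : ∑ i, h i * (Pi.single l (1 : ZMod q) : Fin r → ZMod q) i = h l := by
      rw [sum_eq_single l]
      · rw [Pi.single_eq_same, mul_one]
      · intro i _ hi
        rw [Pi.single_eq_of_ne hi, mul_zero]
      · intro hc
        exact absurd (mem_univ l) hc
    rw [h3]
    ring
  have h4 : (1 - ps q (h l)) * ∑ u : Fin r → ZMod q, ps q (∑ l, h l * u l) = 0 := by
    rw [sub_mul, one_mul, ← h2, sub_self]
  rcases mul_eq_zero.mp h4 with h5 | h5
  · exact absurd (sub_eq_zero.mp h5).symm hne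
  · exact h5

/-- vectors with a given coordinate -/
lemma card_coord (l : Fin r) (x : ZMod q) :
    (((univ : Finset (Fin r → ZMod q)).filter fun c => c l = x).card : ℝ) * q = K q r := by
  have h1 : (univ : Finset (Fin r → ZMod q)).filter (fun c => c l = x) =
      Fintype.piFinset (fun i => if i = l then ({x} : Finset (ZMod q)) else univ) := by
    ext c
    rw [mem_filter, Fintype.mem_piFinset]
    constructor
    · rintro ⟨_, hc⟩ i
      split_ifs with hi
      · rw [hi, hc]
        exact mem_singleton_self x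
      · exact mem_univ _
    · intro hc
      refine ⟨mem_univ _, ?_⟩
      have := hc l
      rw [if_pos rfl, mem_singleton] at this
      exact this
  rw [h1, Fintype.card_piFinset]
  have h2 : ∀ i : Fin r, (if i = l then ({x} : Finset (ZMod q)) else univ).card = if i = l then 1 else q := by
    intro i
    split_ifs
    · exact card_singleton x
    · rw [card_univ, ZMod.card]
  rw [prod_congr rfl fun i _ => h2 i]
  have h3 : (∏ i : Fin r, if i = l then 1 else q) * q = q ^ r := by
    have h4 : (∏ i : Fin r, if i = l then q else 1) = q := by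
      rw [prod_ite_eq' univ l (fun _ => q), if_pos (mem_univ l)]
    calc (∏ i : Fin r, if i = l then 1 else q) * q
        = (∏ i : Fin r, if i = l then 1 else q) * (∏ i : Fin r, if i = l then q else 1) := by rw [h4]
      _ = ∏ i : Fin r, q := by
          rw [← prod_mul_distrib]
          refine prod_congr rfl fun i _ => ?_
          split_ifs <;> simp
      _ = q ^ r := by simp
  have h5 : K q r = ((q ^ r : ℕ) : ℝ) := by
    unfold K
    rw [Fintype.card_fun, ZMod.card, Fintype.card_fin]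
  rw [h5, ← h3]
  push_cast
  ring

lemma T_small [Fact q.Prime] (n : ℕ) (h : Fin r → ZMod q) (hh : h ≠ 0) :
    T q r n h ≤ K q r ^ (2 * n + 1) * (n / q) := by
  have hq0 : (0 : ℝ) < q := by exact_mod_cast (Fact.out : q.Prime).pos
  induction n generalizing h with
  | zero => rw [T_zero h hh]; simp
  | succ n ih =>
    obtain ⟨l, hl⟩ : ∃ l, h l ≠ 0 := by
      by_contra hc
      push Not at hc
      exact hh (funext hc)
    have hK : 0 < K q r := K_pos
    unfold T
    have h1 : ∀ c c' : Fin r → ZMod q, T q r n (fun l => (c l - c' l) * h l) ≤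
        K q r ^ (2 * n + 1) * (n / q) + (if c' l = c l then K q r ^ (2 * n + 1) else 0) := by
      intro c c'
      split_ifs with hc
      · have := T_le n (fun l => (c l - c' l) * h l)
        have h2 : 0 ≤ K q r ^ (2 * n + 1) * ((n : ℝ) / q) := by positivity
        linarith
      · rw [add_zero]
        apply ih
        intro h0
        have h2 := congrFun h0 l
        simp only [Pi.zero_apply] at h2
        rcases mul_eq_zero.mp h2 with h3 | h3
        · exact hc (sub_eq_zero.mp h3).symm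
        · exact hl h3
    refine (sum_le_sum fun c _ => sum_le_sum fun c' _ => h1 c c').trans (le_of_eq ?_)
    have h2 : ∀ c : Fin r → ZMod q, ∑ c' : Fin r → ZMod q,
        (K q r ^ (2 * n + 1) * (n / q) + (if c' l = c l then K q r ^ (2 * n + 1) else 0)) =
        K q r * (K q r ^ (2 * n + 1) * (n / q)) + K q r / q * K q r ^ (2 * n + 1) := by
      intro c
      rw [sum_add_distrib, sum_const, nsmul_eq_mul, card_univ, ← sum_filter, sum_const, nsmul_eq_mul]
      have h3 := card_coord (q := q) l (c l)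
      have h4 : (((univ : Finset (Fin r → ZMod q)).filter fun c' => c' l = c l).card : ℝ) = K q r / q := by
        rw [eq_div_iff hq0.ne']
        exact h3
      rw [h4]
      rfl
    rw [sum_congr rfl fun c _ => h2 c, sum_const, nsmul_eq_mul, card_univ]
    have h5 : ((Fintype.card (Fin r → ZMod q) : ℕ) : ℝ) = K q r := rfl
    rw [h5]
    push_cast
    field_simp
    ring

/-- **Multilinear sums modulo a prime.** -/
theorem bound [Fact q.Prime] (n : ℕ) (h : Fin r → ZMod q) (hh : h ≠ 0)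
    (F : Fin (n + 1) → (Fin (n + 1) → Fin r → ZMod q) → ℂ) (hF1 : ∀ j a, ‖F j a‖ ≤ 1) (hF2 : ∀ j, Free j (F j)) :
    ‖∑ a : Fin (n + 1) → Fin r → ZMod q, ps q (∑ l, h l * ∏ i, a i l) * ∏ j, F j a‖ ≤
      K q r ^ (n + 1) * ((n : ℝ) / q) ^ (1 / 2 ^ n : ℝ) := by
  have hq0 : (0 : ℝ) < q := by exact_mod_cast (Fact.out : q.Prime).pos
  have hK : 0 < K q r := K_pos
  set S : ℝ := ‖∑ a : Fin (n + 1) → Fin r → ZMod q, ps q (∑ l, h l * ∏ i, a i l) * ∏ j, F j a‖ with hS
  have hS0 : 0 ≤ S := norm_nonneg _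
  have h1 := cs n h F hF1 hF2
  have h2 := T_small n h hh
  have h3 : K q r ^ (2 * n + 1) * S ^ (2 ^ n) ≤ K q r ^ (2 * n + 1) * (K q r ^ ((n + 1) * 2 ^ n) * ((n : ℝ) / q)) := by
    refine h1.trans ?_
    calc K q r ^ ((n + 1) * 2 ^ n) * T q r n h ≤ K q r ^ ((n + 1) * 2 ^ n) * (K q r ^ (2 * n + 1) * (n / q)) := by
          gcongr
      _ = _ := by ring
  have h4 := le_of_mul_le_mul_left h3 (by positivity)
  have h5 : S = (S ^ (2 ^ n)) ^ (1 / 2 ^ n : ℝ) := by
    rw [← Real.rpow_natCast, ← Real.rpow_mul hS0]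
    push_cast
    rw [mul_one_div_cancel (by positivity), Real.rpow_one]
  rw [h5]
  refine (Real.rpow_le_rpow (by positivity) h4 (by positivity)).trans (le_of_eq ?_)
  rw [Real.mul_rpow (by positivity) (by positivity)]
  congr 1
  rw [← Real.rpow_natCast (K q r) ((n + 1) * 2 ^ n), ← Real.rpow_mul hK.le, ← Real.rpow_natCast (K q r) (n + 1)]
  congr 1
  push_cast
  field_simp

lemma ps_sum {ι : Type} (s : Finset ι) (f : ι → ZMod q) : ps q (∑ i ∈ s, f i) = ∏ i ∈ s, ps q (f i) := by
  induction s using Finset.induction_on with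
  | empty =>
    rw [sum_empty, prod_empty]
    exact AddChar.map_zero_eq_one _
  | insert a s ha ih => rw [sum_insert ha, prod_insert ha, ps_add, ih]

/-- **Multilinear families of vectors of residues.** -/
theorem flat [Fact q.Prime] (n : ℕ) (hnq : n ^ 2 ≤ q)
    (x : Fin (n + 1) → (Fin (n + 1) → Fin r → ZMod q) → (Fin r → ZMod q)) (hx : ∀ j, Free j (x j))
    (E : Fin (n + 1) → (Fin (n + 1) → Fin r → ZMod q) → Prop) (hE : ∀ j, Free j (E j))
    (hs : (q : ℝ) ^ (-(1 / (4 * 2 ^ n)) : ℝ) * (q : ℝ) ^ (r * (n + 1)) ≤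
      (((univ : Finset (Fin (n + 1) → Fin r → ZMod q)).filter fun a => ∀ j, E j a).card : ℝ))
    (h : Fin r → ZMod q) (hh : h ≠ 0) :
    ‖∑ a ∈ (univ : Finset (Fin (n + 1) → Fin r → ZMod q)).filter (fun a => ∀ j, E j a),
      (ZMod.stdAddChar (∑ l, h l * (∏ i, a i l + ∑ j, x j a l)) : ℂ)‖ ≤
      (q : ℝ) ^ (-(1 / (4 * 2 ^ n)) : ℝ) *
        ((univ : Finset (Fin (n + 1) → Fin r → ZMod q)).filter fun a => ∀ j, E j a).card := by
  have hq1 : (1 : ℝ) ≤ q := by exact_mod_cast (Fact.out : q.Prime).one_lt.le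
  have hq0 : (0 : ℝ) < q := by linarith
  have hK : 0 < K q r := K_pos
  set F : Fin (n + 1) → (Fin (n + 1) → Fin r → ZMod q) → ℂ := fun j a =>
    if E j a then ps q (∑ l, h l * x j a l) else 0 with hF
  have hF1 : ∀ j a, ‖F j a‖ ≤ 1 := by
    intro j a
    rw [hF]
    simp only
    split_ifs
    · exact (ps_norm _).le
    · simp
  have hF2 : ∀ j, Free j (F j) := by
    intro j a a' haa
    rw [hF]
    simp only
    rw [hE j a a' haa, hx j a a' haa]
  have h1 : ∑ a ∈ (univ : Finset (Fin (n + 1) → Fin r → ZMod q)).filter (fun a => ∀ j, E j a),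
      (ZMod.stdAddChar (∑ l, h l * (∏ i, a i l + ∑ j, x j a l)) : ℂ) =
      ∑ a : Fin (n + 1) → Fin r → ZMod q, ps q (∑ l, h l * ∏ i, a i l) * ∏ j, F j a := by
    rw [sum_filter]
    refine sum_congr rfl fun a _ => ?_
    have h2 : ∏ j, F j a = if (∀ j, E j a) then ∏ j, ps q (∑ l, h l * x j a l) else 0 := by
      rw [hF]
      simp only
      rw [prod_ite_zero]
      simp only [mem_univ, true_imp_iff]
    rw [h2]
    split_ifs
    · rw [← ps_sum, ← ps_add]
      unfold ps
      congr 1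
      rw [sum_comm (f := fun j l => h l * x j a l), ← sum_add_distrib]
      refine sum_congr rfl fun l _ => ?_
      rw [mul_add, mul_sum]
    · rw [mul_zero]
  rw [h1]
  refine (bound n h hh F hF1 hF2).trans ?_
  have h3 : K q r = (q : ℝ) ^ r := by
    unfold K
    rw [Fintype.card_fun, ZMod.card, Fintype.card_fin]
    push_cast
    rfl
  have h4 : (n : ℝ) / q ≤ (q : ℝ) ^ (-(1 / 2) : ℝ) := by
    rw [div_le_iff₀ hq0]
    have h5 : (q : ℝ) ^ (-(1 / 2) : ℝ) * q = √(q : ℝ) := by
      rw [Real.sqrt_eq_rpow]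
      nth_rewrite 2 [← Real.rpow_one (q : ℝ)]
      rw [← Real.rpow_add hq0]
      norm_num
    rw [h5]
    apply Real.le_sqrt_of_sq_le
    exact_mod_cast hnq
  have h6 : ((n : ℝ) / q) ^ (1 / 2 ^ n : ℝ) ≤ (q : ℝ) ^ (-(1 / (4 * 2 ^ n)) : ℝ) * (q : ℝ) ^ (-(1 / (4 * 2 ^ n)) : ℝ) := by
    refine (Real.rpow_le_rpow (by positivity) h4 (by positivity)).trans (le_of_eq ?_)
    rw [← Real.rpow_mul hq0.le, ← Real.rpow_add hq0]
    congr 1
    field_simp
    norm_num
  calc K q r ^ (n + 1) * ((n : ℝ) / q) ^ (1 / 2 ^ n : ℝ)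
      ≤ K q r ^ (n + 1) * ((q : ℝ) ^ (-(1 / (4 * 2 ^ n)) : ℝ) * (q : ℝ) ^ (-(1 / (4 * 2 ^ n)) : ℝ)) :=
        mul_le_mul_of_nonneg_left h6 (by positivity)
    _ = (q : ℝ) ^ (-(1 / (4 * 2 ^ n)) : ℝ) * ((q : ℝ) ^ (-(1 / (4 * 2 ^ n)) : ℝ) * (q : ℝ) ^ (r * (n + 1))) := by
        rw [h3, ← pow_mul]
        ring
    _ ≤ _ := mul_le_mul_of_nonneg_left hs (by positivity)

end Pool.Agent.Run7.h566.FQ
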