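import Mathlib
import Pool.Agent.Run7.h566.ML.Cs

/-! Multilinear sums over a finite field, vector valued, with weights which do not depend on one variable. -/

set_option autoImplicit false

open Finset
open scoped Classical

namespace Pool.Agent.Run7.h566.FQ

/-- `F` does not depend on the coordinate `j` -/
def Free {n : ℕ} {V X : Type} (j : Fin n) (F : (Fin n → V) → X) : Prop :=
  ∀ a a' : Fin n → V, (∀ i, i ≠ j → a i = a' i) → F a = F a'

lemma sum_succ {V X : Type} [Fintype V] [AddCommMonoid X] (n : ℕ) (f : (Fin (n + 1) → V) → X) :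
    ∑ a, f a = ∑ c : V, ∑ a : Fin n → V, f (Fin.cons c a) := by
  rw [← Fintype.sum_prod_type' (f := fun c a => f (Fin.cons c a))]
  exact (Fintype.sum_equiv (Fin.consEquiv (fun _ => V)) _ _ (fun _ => rfl)).symm

variable (q : ℕ) [NeZero q] (r : ℕ)

/-- the standard character -/
noncomputable def ps (x : ZMod q) : ℂ := (ZMod.stdAddChar x : ℂ)

variable {q}

lemma ps_norm (x : ZMod q) : ‖ps q x‖ = 1 := AddChar.norm_apply _ x

lemma ps_add (x y : ZMod q) : ps q (x + y) = ps q x * ps q y := AddChar.map_add_eq_mul _ x y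

lemma ps_conj (x : ZMod q) : (starRingEnd ℂ) (ps q x) = ps q (-x) := (AddChar.map_neg_eq_conj _ x).symm

variable (q)

/-- the sums over the differences -/
noncomputable def T : ℕ → (Fin r → ZMod q) → ℝ
  | 0, h => ‖∑ u : Fin r → ZMod q, ps q (∑ l, h l * u l)‖
  | n + 1, h => ∑ c : Fin r → ZMod q, ∑ c' : Fin r → ZMod q, T n (fun l => (c l - c' l) * h l)

/-- the number of vectors -/
noncomputable def K : ℝ := (Fintype.card (Fin r → ZMod q) : ℝ)

variable {q r}

lemma T_nonneg (n : ℕ) (h : Fin r → ZMod q) : 0 ≤ T q r n h := by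
  induction n generalizing h with
  | zero => exact norm_nonneg _
  | succ n ih =>
    unfold T
    exact sum_nonneg fun c _ => sum_nonneg fun c' _ => ih _

lemma T_le (n : ℕ) (h : Fin r → ZMod q) : T q r n h ≤ K q r ^ (2 * n + 1) := by
  induction n generalizing h with
  | zero =>
    rw [mul_zero, zero_add, pow_one]
    unfold T K
    refine (norm_sum_le _ _).trans ?_
    rw [sum_congr rfl fun a _ => ps_norm _]
    simp
  | succ n ih =>
    unfold T
    refine (sum_le_sum fun c _ => sum_le_sum fun c' _ => ih _).trans (le_of_eq ?_)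
    simp only [sum_const, nsmul_eq_mul, card_univ]
    have : ((Fintype.card (Fin r → ZMod q) : ℕ) : ℝ) = K q r := rfl
    rw [this]
    ring

/-- **Cauchy–Schwarz.** -/
theorem cs (n : ℕ) : ∀ (h : Fin r → ZMod q) (F : Fin (n + 1) → (Fin (n + 1) → Fin r → ZMod q) → ℂ),
    (∀ j a, ‖F j a‖ ≤ 1) → (∀ j, Free j (F j)) →
    K q r ^ (2 * n + 1) *
      ‖∑ a : Fin (n + 1) → Fin r → ZMod q, ps q (∑ l, h l * ∏ i, a i l) * ∏ j, F j a‖ ^ (2 ^ n) ≤
      K q r ^ ((n + 1) * 2 ^ n) * T q r n h := by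
  induction n with
  | zero =>
    intro h F hF1 hF2
    have h1 : ∑ a : Fin (0 + 1) → Fin r → ZMod q, ps q (∑ l, h l * ∏ i, a i l) * ∏ j, F j a =
        F 0 (fun _ => 0) * ∑ c : Fin r → ZMod q, ps q (∑ l, h l * c l) := by
      rw [sum_succ, mul_sum]
      refine sum_congr rfl fun c _ => ?_
      rw [Fintype.sum_unique]
      have h3 : ∀ d : Fin 0 → Fin r → ZMod q, F 0 (Fin.cons c d) = F 0 (fun _ => 0) := by
        intro d
        apply hF2 0
        intro i hi
        exact absurd (by fin_cases i; rfl) hi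
      simp only [Fin.prod_univ_succ, Fin.cons_zero, univ_eq_empty, prod_empty, mul_one, Nat.reduceAdd]
      rw [mul_comm]
      congr 1
      exact h3 _
    rw [h1]
    simp only [pow_zero, pow_one, mul_zero, zero_add, mul_one]
    rw [norm_mul]
    apply mul_le_mul_of_nonneg_left _ (by unfold K; positivity)
    calc ‖F 0 fun _ => 0‖ * ‖∑ c : Fin r → ZMod q, ps q (∑ l, h l * c l)‖
        ≤ 1 * ‖∑ c : Fin r → ZMod q, ps q (∑ l, h l * c l)‖ := by
          gcongr
          exact hF1 _ _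
      _ = T q r 0 h := by rw [one_mul]; rfl
  | succ n ih =>
    intro h F hF1 hF2
    -- the inner sums
    set Q : (Fin r → ZMod q) → (Fin (n + 1) → Fin r → ZMod q) → ℂ := fun c a =>
      ps q (∑ l, (c l * h l) * ∏ i, a i l) * ∏ j : Fin (n + 1), F j.succ (Fin.cons c a) with hQ
    set f : (Fin (n + 1) → Fin r → ZMod q) → ℂ := fun a => F 0 (Fin.cons 0 a) with hf
    have hsum : ∑ a : Fin (n + 1 + 1) → Fin r → ZMod q, ps q (∑ l, h l * ∏ i, a i l) * ∏ j, F j a =
        ∑ a : Fin (n + 1) → Fin r → ZMod q, f a * ∑ c, Q c a := by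
      rw [sum_succ, sum_comm]
      refine sum_congr rfl fun a _ => ?_
      rw [mul_sum]
      refine sum_congr rfl fun c _ => ?_
      rw [Fin.prod_univ_succ (n := n + 1) (f := fun j => F j (Fin.cons c a))]
      have h1 : F 0 (Fin.cons c a) = f a := by
        rw [hf]
        apply hF2 0
        intro i hi
        obtain ⟨i', rfl⟩ := Fin.exists_succ_eq.2 hi
        rw [Fin.cons_succ, Fin.cons_succ]
      rw [h1, hQ]
      simp only
      have h2 : ∑ l, h l * ∏ i, (Fin.cons c a : Fin (n + 1 + 1) → Fin r → ZMod q) i l =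
          ∑ l, (c l * h l) * ∏ i, a i l := by
        refine sum_congr rfl fun l _ => ?_
        rw [Fin.prod_univ_succ]
        simp only [Fin.cons_zero, Fin.cons_succ]
        ring
      rw [h2]
      ring
    set U : (Fin r → ZMod q) → (Fin r → ZMod q) → ℂ := fun c c' =>
      ∑ a : Fin (n + 1) → Fin r → ZMod q, Q c a * (starRingEnd ℂ) (Q c' a) with hU
    have hcard : (Fintype.card (Fin (n + 1) → Fin r → ZMod q) : ℝ) = K q r ^ (n + 1) := by
      unfold K
      rw [Fintype.card_fun]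
      push_cast
      rw [Fintype.card_fin]
    have hcs : ‖∑ a : Fin (n + 1) → Fin r → ZMod q, f a * ∑ c, Q c a‖ ^ 2 ≤
        K q r ^ (n + 1) * ∑ c, ∑ c', ‖U c c'‖ := by
      have h1 : ‖∑ a : Fin (n + 1) → Fin r → ZMod q, f a * ∑ c, Q c a‖ ≤
          ∑ a : Fin (n + 1) → Fin r → ZMod q, ‖∑ c, Q c a‖ := by
        refine (norm_sum_le _ _).trans (sum_le_sum fun a _ => ?_)
        rw [norm_mul]
        calc ‖f a‖ * ‖∑ c, Q c a‖ ≤ 1 * ‖∑ c, Q c a‖ := by
              gcongr
              exact hF1 _ _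
          _ = _ := one_mul _
      have h2 : (∑ a : Fin (n + 1) → Fin r → ZMod q, ‖∑ c, Q c a‖) ^ 2 ≤
          K q r ^ (n + 1) * ∑ a : Fin (n + 1) → Fin r → ZMod q, ‖∑ c, Q c a‖ ^ 2 := by
        have := sq_sum_le_card_mul_sum_sq (s := (univ : Finset (Fin (n + 1) → Fin r → ZMod q)))
          (f := fun a => ‖∑ c, Q c a‖)
        rw [card_univ, hcard] at this
        exact this
      have h3 : ((∑ a : Fin (n + 1) → Fin r → ZMod q, ‖∑ c, Q c a‖ ^ 2 : ℝ) : ℂ) =
          ∑ c, ∑ c', U c c' := by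
        push_cast
        have h4 : ∀ a, ((‖∑ c, Q c a‖ : ℂ)) ^ 2 = ∑ c, ∑ c', Q c a * (starRingEnd ℂ) (Q c' a) := by
          intro a
          have h5 : ((‖∑ c, Q c a‖ : ℂ)) ^ 2 = (∑ c, Q c a) * (starRingEnd ℂ) (∑ c, Q c a) := by
            rw [Complex.mul_conj, Complex.normSq_eq_norm_sq]
            push_cast
            rfl
          rw [h5, map_sum, sum_mul_sum]
        rw [sum_congr rfl fun a _ => h4 a, sum_comm]
        refine sum_congr rfl fun c _ => ?_
        rw [sum_comm]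
      have h6 : ∑ a : Fin (n + 1) → Fin r → ZMod q, ‖∑ c, Q c a‖ ^ 2 ≤ ∑ c, ∑ c', ‖U c c'‖ := by
        have h7 : ∑ a : Fin (n + 1) → Fin r → ZMod q, ‖∑ c, Q c a‖ ^ 2 =
            ‖((∑ a : Fin (n + 1) → Fin r → ZMod q, ‖∑ c, Q c a‖ ^ 2 : ℝ) : ℂ)‖ := by
          rw [Complex.norm_real, Real.norm_eq_abs, abs_of_nonneg]
          exact sum_nonneg fun _ _ => by positivity
        rw [h7, h3]
        refine (norm_sum_le _ _).trans (sum_le_sum fun c _ => norm_sum_le _ _)
      have hK0 : 0 ≤ K q r := by unfold K; positivity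
      calc ‖∑ a : Fin (n + 1) → Fin r → ZMod q, f a * ∑ c, Q c a‖ ^ 2
          ≤ (∑ a : Fin (n + 1) → Fin r → ZMod q, ‖∑ c, Q c a‖) ^ 2 :=
            pow_le_pow_left₀ (norm_nonneg _) h1 2
        _ ≤ _ := h2
        _ ≤ _ := by gcongr
    -- the inner sums are of the same form
    have hin : ∀ c c' : Fin r → ZMod q, K q r ^ (2 * n + 1) * ‖U c c'‖ ^ (2 ^ n) ≤
        K q r ^ ((n + 1) * 2 ^ n) * T q r n (fun l => (c l - c' l) * h l) := by
      intro c c'
      have h1 := ih (fun l => (c l - c' l) * h l)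
        (fun j a => F j.succ (Fin.cons c a) * (starRingEnd ℂ) (F j.succ (Fin.cons c' a)))
        (fun j a => by
          rw [norm_mul, RCLike.norm_conj]
          exact mul_le_one₀ (hF1 _ _) (norm_nonneg _) (hF1 _ _))
        (fun j a a' haa => by
          have h2 : ∀ c : Fin r → ZMod q, F j.succ (Fin.cons c a) = F j.succ (Fin.cons c a') := by
            intro c
            apply hF2 j.succ
            intro i hi
            rcases Fin.eq_zero_or_eq_succ i with h0 | ⟨i', rfl⟩
            · subst h0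
              rw [Fin.cons_zero, Fin.cons_zero]
            · rw [Fin.cons_succ, Fin.cons_succ]
              exact haa i' (fun h => hi (by rw [h]))
          simp only
          rw [h2 c, h2 c'])
      refine le_trans (le_of_eq ?_) h1
      congr 3
      rw [hU]
      simp only
      refine sum_congr rfl fun a _ => ?_
      rw [hQ]
      simp only
      rw [map_mul, ps_conj, prod_mul_distrib, map_prod]
      have h3 : ps q (∑ l, (c l - c' l) * h l * ∏ i, a i l) =
          ps q (∑ l, (c l * h l) * ∏ i, a i l) * ps q (-(∑ l, (c' l * h l) * ∏ i, a i l)) := by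
        rw [← ps_add]
        congr 1
        rw [← sub_eq_add_neg, ← sum_sub_distrib]
        refine sum_congr rfl fun l _ => ?_
        ring
      rw [h3]
      ring
    rw [hsum]
    -- power mean
    have hpm : (∑ c, ∑ c', ‖U c c'‖) ^ (2 ^ n) ≤
        (K q r ^ 2) ^ (2 ^ n - 1) * ∑ c, ∑ c', ‖U c c'‖ ^ (2 ^ n) := by
      rw [← sum_product', ← sum_product']
      have h1 : 2 ^ n - 1 + 1 = 2 ^ n := Nat.sub_add_cancel Nat.one_le_two_pow
      have h2 := Pool.Agent.Run7.h566.ML.pmean ((univ : Finset (Fin r → ZMod q)) ×ˢ univ)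
        (fun x => ‖U x.1 x.2‖) (fun _ _ => norm_nonneg _) (2 ^ n - 1)
      rw [h1, card_product, card_univ] at h2
      refine h2.trans (le_of_eq ?_)
      unfold K
      push_cast
      ring
    set V : ℝ := ∑ c, ∑ c', ‖U c c'‖ with hV
    have hV0 : 0 ≤ V := sum_nonneg fun _ _ => sum_nonneg fun _ _ => norm_nonneg _
    set N : ℝ := ‖∑ a : Fin (n + 1) → Fin r → ZMod q, f a * ∑ c, Q c a‖ with hN
    have hN0 : 0 ≤ N := norm_nonneg _
    have hM0 : (0 : ℝ) ≤ K q r := by unfold K; positivity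
    have e1 : N ^ 2 ^ (n + 1) = (N ^ 2) ^ 2 ^ n := by
      rw [← pow_mul]
      congr 1
      ring
    have e2 : K q r ^ 2 * (K q r ^ 2) ^ (2 ^ n - 1) = K q r ^ (2 * 2 ^ n) := by
      rw [← pow_succ', Nat.sub_add_cancel Nat.one_le_two_pow, ← pow_mul]
    have e3 : K q r ^ (2 * (n + 1) + 1) = K q r ^ 2 * K q r ^ (2 * n + 1) := by
      rw [← pow_add]
      congr 1
      ring
    calc K q r ^ (2 * (n + 1) + 1) * N ^ 2 ^ (n + 1)
        ≤ K q r ^ (2 * (n + 1) + 1) * (K q r ^ (n + 1) * V) ^ 2 ^ n := by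
          rw [e1]
          gcongr
      _ = K q r ^ (2 * (n + 1) + 1) * ((K q r ^ (n + 1)) ^ 2 ^ n * V ^ 2 ^ n) := by rw [mul_pow]
      _ ≤ K q r ^ (2 * (n + 1) + 1) * ((K q r ^ (n + 1)) ^ 2 ^ n *
            ((K q r ^ 2) ^ (2 ^ n - 1) * ∑ c, ∑ c', ‖U c c'‖ ^ (2 ^ n))) := by
          gcongr
      _ = (K q r ^ (n + 1)) ^ 2 ^ n * (K q r ^ 2 * (K q r ^ 2) ^ (2 ^ n - 1)) *
            (K q r ^ (2 * n + 1) * ∑ c, ∑ c', ‖U c c'‖ ^ (2 ^ n)) := by
          rw [e3]
          ring
      _ = (K q r ^ (n + 1)) ^ 2 ^ n * K q r ^ (2 * 2 ^ n) *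
            (∑ c, ∑ c', K q r ^ (2 * n + 1) * ‖U c c'‖ ^ (2 ^ n)) := by
          rw [e2, mul_sum]
          congr 1
          refine sum_congr rfl fun c _ => ?_
          rw [mul_sum]
      _ ≤ (K q r ^ (n + 1)) ^ 2 ^ n * K q r ^ (2 * 2 ^ n) *
            (∑ c : Fin r → ZMod q, ∑ c' : Fin r → ZMod q,
              K q r ^ ((n + 1) * 2 ^ n) * T q r n (fun l => (c l - c' l) * h l)) := by
          apply mul_le_mul_of_nonneg_left _ (by positivity)
          exact sum_le_sum fun c _ => sum_le_sum fun c' _ => hin c c'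
      _ = K q r ^ ((n + 1 + 1) * 2 ^ (n + 1)) * T q r (n + 1) h := by
          simp only [← mul_sum]
          rw [← mul_assoc]
          have e4 : (K q r ^ (n + 1)) ^ 2 ^ n * K q r ^ (2 * 2 ^ n) * K q r ^ ((n + 1) * 2 ^ n) =
              K q r ^ ((n + 1 + 1) * 2 ^ (n + 1)) := by
            rw [← pow_mul, ← pow_add, ← pow_add]
            congr 1
            ring
          rw [e4]
          rfl

end Pool.Agent.Run7.h566.FQ
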